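import Pool.Agent.N166.TT.Stm
import Pool.Agent.U231.FR.Base
import Pool.Agent.U173.PS.NumDefs
import Pool.Agent.U173.SL.GeoDefs

/-!
# Varieties over finitely generated fields which are good at one place: definitions

The framework (`Operations`, `IsGaloisAction`, `IsTate`, `IsSpanned`, `RankEquality`, `CyclesExpand`,
`TateExpand`) is that of the starting library `N166/TT/Stm`.
-/

set_option autoImplicit false

open Polynomial CategoryTheory AlgebraicGeometry

namespace Pool.Agent.U173.OP

open Pool.Agent.H914 Pool.Agent.H914.VarClass Pool.Agent.H914.VarClass.Obj Pool.Agent.W492.BB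
  Pool.Agent.W484.CK Pool.Agent.N166.MU Pool.Agent.N166.TT Pool.Agent.U231.FR.Base
  Pool.Agent.U173.SL Pool.Agent.U173.PS

/-- A place with residue field of `p ^ m` elements: `σ` is a geometric Frobenius element, and `ι` an
embedding of the algebraic numbers into an algebraic closure of the field of `p`-adic numbers. -/
structure Place (G : Type) where
  σ : G
  p : ℕ
  m : ℕ
  [prime : Fact p.Prime]
  ι : AlgebraicClosure ℚ →+* PadicAlgCl p

attribute [instance] Place.prime

variable {k : Type} [Field k] {𝒱 : VarClass k} {C : TheoryData.{0, 0, 0} 𝒱 ℚ} {K : Type}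
  [Field K] {H : WeilTheoryData.{0, 0, 0} C K} {G : Type}

/-- The usual properties of the Chow groups with rational coefficients of varieties over `k`, of a
Weil cohomology theory and of the operation of the Galois group on it. -/
structure IsArithmetic (ρ : Operations H G) : Prop where
  normalized : IsNormalized C
  standard : IsStandard H
  oriented : IsTopOriented H
  action : IsGaloisAction ρ
  degrees : ∀ X g i a, H.Deg i a → H.Deg i (ρ.op X g a)

variable (ρ : Operations H G) [CharZero K]

/-- `M` is a slope field of `X` at the place `v`: a slope field of all eigenvalues of the Frobenius at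
`v` on the cohomology of `X`. -/
def HasSlopeField (v : Place G) (M : IntermediateField ℚ (AlgebraicClosure ℚ)) (X : 𝒱.Obj) :
    Prop :=
  ∀ (α : K) (a : H.A X), a ≠ 0 → ρ.op X v.σ a = α • a → HasSlopesIn v.p v.ι M α

/-- The eigenvalues of the Frobenius at `v` on the cohomology of `X` are Weil numbers. -/
def IsPure (v : Place G) (X : 𝒱.Obj) : Prop :=
  ∀ (α : K) (a : H.A X), a ≠ 0 → ρ.op X v.σ a = α • a → ∃ w, IsWeilNumber (v.p ^ v.m) w α

/-- `X` is good at the place `v` with slope field `L`: the cohomology of `X` is generated, as a vector
space, by the classes of algebraic cycles (over `k`) and a subspace `T` which is stable under the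
Frobenius at `v` such that the eigenvalues on `T` are Weil numbers with slope field `L` and not
supersingular. -/
def IsGood (v : Place G) (L : IntermediateField ℚ (AlgebraicClosure ℚ)) (X : 𝒱.Obj) : Prop :=
  ∃ T : Submodule K (H.A X), (∀ t ∈ T, ρ.op X v.σ t ∈ T) ∧ cycleSpan H X ⊔ T = ⊤ ∧
    ∀ (α : K), ∀ t ∈ T, t ≠ 0 → ρ.op X v.σ t = α • t → IsGoodNumber v.p v.m v.ι L α

/-- `X` has at `v` a slope field which contains `E` and meets `L` in a totally real field. -/
def MeetsInReal (v : Place G) (E L : IntermediateField ℚ (AlgebraicClosure ℚ)) (X : 𝒱.Obj) :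
    Prop :=
  ∃ M, E ≤ M ∧ MeetInReal L M ∧ HasSlopeField ρ v M X

/-- `W` is apart from a variety which is good at `v` with slope field `L`: the field `L` is normal over
`E`, and `W` is pure at `v` and has there a slope field which contains `E` and meets `L` in a totally
real field. -/
def IsApart (v : Place G) (E L : IntermediateField ℚ (AlgebraicClosure ℚ)) (W : 𝒱.Obj) : Prop :=
  IsNormalOver E L ∧ IsPure ρ v W ∧ MeetsInReal ρ v E L W

/-- Each `X i` is good at the place `v i`, with a slope field `L i` which contains the totally real
field `E i`. The varieties `X j` with indices behind `i` in the list `l` and the varieties `Y j`, `j` in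
the list `l'`, are apart from `X i` at the place `v i`; and `Z` has at `v i` a slope field which contains
`E i` and meets `L i` in a totally real field. -/
structure IsSystem {I I' : Type} (v : I → Place G)
    (E L : I → IntermediateField ℚ (AlgebraicClosure ℚ)) (X : I → 𝒱.Obj) (Y : I' → 𝒱.Obj)
    (Z : 𝒱.Obj) (l : List I) (l' : List I') : Prop where
  pos : ∀ i, 0 < (v i).m
  character : ∀ i, ρ.χ (v i).σ = ((v i).p : K) ^ (v i).m
  real : ∀ i, ∀ z ∈ E i, IsTotallyReal z
  le : ∀ i, E i ≤ L i
  good : ∀ i, IsGood ρ (v i) (L i) (X i)
  pairs : l.Pairwise fun i j => IsApart ρ (v i) (E i) (L i) (X j)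
  others : ∀ i, ∀ j ∈ l', IsApart ρ (v i) (E i) (L i) (Y j)
  base : ∀ i, MeetsInReal ρ (v i) (E i) (L i) Z

/-- The cycles and the Tate classes on `A × Z` are determined by those on `Z`: there are finitely many
cycles `D j` on `A` such that modulo homological equivalence every cycle on `A × Z` can be written in a
unique way as `∑ D j × z j`, and every Tate class in a unique way as `∑ cl (D j) × h j` with Tate
classes `h j`. -/
def IsDetermined (A Z : 𝒱.Obj) : Prop :=
  ∃ (J : Type) (_ : Fintype J) (deg : J → ℕ) (D : J → C.A A), (∀ j, C.Deg (deg j) (D j)) ∧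
    CyclesExpand H Z deg D ∧ TateExpand ρ Z deg D

end Pool.Agent.U173.OP
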