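import Pool.Agent.N876.CG.Step
import Pool.Agent.N166.TT.Main
import Pool.Agent.W484.CK.Main
import Pool.Agent.U173.OP.Defs

/-!
# Operations on the cohomology of products
-/

set_option autoImplicit false
set_option linter.unusedSectionVars false

open Polynomial CategoryTheory AlgebraicGeometry
open scoped TensorProduct

namespace Pool.Agent.U173.OP

open Pool.Agent.H914 Pool.Agent.H914.VarClass Pool.Agent.H914.VarClass.Obj Pool.Agent.W492.BB
  Pool.Agent.W484.CK Pool.Agent.N166.MU Pool.Agent.N166.TT Pool.Agent.N876.CG Pool.Agent.W550.Corr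

variable {k : Type} [Field k] {𝒱 : VarClass k} {C : TheoryData.{0, 0, 0} 𝒱 ℚ} [hC : IsChow C]
  {K : Type} [Field K] [CharZero K] {H : WeilTheoryData.{0, 0, 0} C K} [hH : IsWeil H] {G : Type}
  {ρ : Operations H G}

/-- the operation of `g` as a linear map -/
def opL (hρ : IsGaloisAction ρ) (g : G) (X : 𝒱.Obj) : Module.End K (H.A X) where
  toFun := ρ.op X g
  map_add' := hρ.add X g
  map_smul' := hρ.smul X g

theorem opL_apply (hρ : IsGaloisAction ρ) (g : G) (X : 𝒱.Obj) (a : H.A X) :
    opL hρ g X a = ρ.op X g a := rfl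

variable (h : IsArithmetic ρ) {g : G} {Q : ℕ} (hg : ρ.χ g = (Q : K)) {A Z : 𝒱.Obj}

include hg in
theorem opL_cl (n : ℕ) {D : C.A A} (hD : D ∈ C.gr A n) :
    opL h.action g A (H.cl D) = (Q : K) ^ n • H.cl D := by
  have h1 := h.action.cl A g n D hD
  rw [hg, zpow_natCast] at h1
  exact h1

theorem opL_ext (a : H.A A) (b : H.A Z) :
    opL h.action g (A.prod Z) (H.ext a b) = H.ext (opL h.action g A a) (opL h.action g Z b) := by
  have h1 := h.action.mul (A.prod Z) g (H.pull (fst A Z) a) (H.pull (snd A Z) b)
  have h2 := h.action.pull _ _ (fst A Z) g a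
  have h3 := h.action.pull _ _ (snd A Z) g b
  change ρ.op _ g (H.pull (fst A Z) a * H.pull (snd A Z) b) =
    H.pull (fst A Z) (ρ.op A g a) * H.pull (snd A Z) (ρ.op Z g b)
  change ρ.op _ g (H.pull (fst A Z) a * H.pull (snd A Z) b) =
    ρ.op _ g (H.pull (fst A Z) a) * ρ.op _ g (H.pull (snd A Z) b) at h1
  rw [h1]
  exact congrArg₂ _ h2 h3

theorem opL_mul (a b : H.A A) :
    opL h.action g A (a * b) = opL h.action g A a * opL h.action g A b :=
  h.action.mul A g a b

include hg in
theorem AK_op {n : ℕ} {c : H.A A} (hc : c ∈ AK H A n) :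
    opL h.action g A c = (Q : K) ^ n • c := by
  unfold AK at hc
  induction hc using Submodule.span_induction with
  | mem c hc =>
    obtain ⟨D, hD, rfl⟩ := hc
    exact opL_cl h hg n hD
  | zero => rw [map_zero, smul_zero]
  | add x y _ _ hx hy => rw [map_add, hx, hy, smul_add]
  | smul a x _ hx => rw [map_smul, hx, smul_comm]

include hg in
theorem AT_op : ∀ c ∈ AT H A, opL h.action g A c ∈ AT H A := by
  intro c hc
  unfold AT at hc
  induction hc using Submodule.span_induction with
  | mem c hc =>
    obtain ⟨n, D, hD, rfl⟩ := hc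
    rw [opL_cl h hg n hD]
    exact Submodule.smul_mem _ _ (Submodule.subset_span ⟨n, D, hD, rfl⟩)
  | zero => rw [map_zero]; exact Submodule.zero_mem _
  | add x y _ _ hx hy => rw [map_add]; exact Submodule.add_mem _ hx hy
  | smul a x _ hx => rw [map_smul]; exact Submodule.smul_mem _ _ hx

include hg in
/-- the orientation and the operation -/
theorem tr_op (hQ : 0 < Q) (c : H.A A) :
    H.tr A (opL h.action g A c) = (Q : K) ^ A.dim * H.tr A c := by
  have hQK : (Q : K) ≠ 0 := by exact_mod_cast hQ.ne'
  obtain ⟨z₀, -, hz₀, -⟩ := exists_deg_one C A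
  have htr : ∀ x : H.A A, H.tr A x =
      H.tr A (H.push (snd A A) (H.pull (fst A A) x) * H.cl z₀) := by
    intro x
    rw [← Pool.Agent.W484.CH.tr_snd, Pool.Agent.W484.CH.tr_fst, ← H.cl_pull, ← H.cl_push, hz₀ A,
      map_one, mul_one]
  have htop : c ∈ ⨆ i, H.gr A i := by
    rw [(hH.isTheory.isGradedRing.isInternal A).submodule_iSup_eq_top]
    exact Submodule.mem_top
  induction htop using Submodule.iSup_induction' with
  | mem i c hc =>
    by_cases hi : i = 2 * A.dim
    · have h0 : H.push (snd A A) (H.pull (fst A A) c) ∈ H.gr A 0 := by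
        have h1 := H.push_mem (snd A A) (H.pull_mem (fst A A) hc)
        rw [Obj.dim_prod, hi] at h1
        have h2 : 2 * (A.dim : ℤ) + 2 * ((A.dim : ℤ) - ((A.dim + A.dim : ℕ) : ℤ)) = 0 := by
          push_cast
          ring
        rwa [h2] at h1
      obtain ⟨a, ha⟩ := h.standard.coh_zero A _ h0
      have h1 := h.action.push _ _ (snd A A) g (H.pull (fst A A) c)
      change opL h.action g A (H.push (snd A A) (H.pull (fst A A) c)) =
        _ • H.push (snd A A) (ρ.op _ g (H.pull (fst A A) c)) at h1
      have h2 : ρ.op _ g (H.pull (fst A A) c) = H.pull (fst A A) (opL h.action g A c) :=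
        h.action.pull _ _ (fst A A) g c
      have h3 : opL h.action g A 1 = (1 : H.A A) := by
        have h4 := opL_cl h hg 0 (C.one_mem A)
        rwa [map_one, pow_zero, one_smul] at h4
      rw [h2, ha, map_smul, h3, ← ha, hg, Obj.dim_prod] at h1
      have h4 : ((A.dim : ℤ) - ((A.dim + A.dim : ℕ) : ℤ)) = - (A.dim : ℤ) := by
        push_cast
        ring
      rw [h4, zpow_neg, zpow_natCast] at h1
      have h5 : H.push (snd A A) (H.pull (fst A A) (opL h.action g A c)) =
          (Q : K) ^ A.dim • H.push (snd A A) (H.pull (fst A A) c) := by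
        rw [h1, smul_smul, mul_inv_cancel₀ (pow_ne_zero _ hQK), one_smul]
      rw [htr (opL h.action g A c), htr c, h5, smul_mul_assoc, map_smul, smul_eq_mul]
    · have h1 : H.tr A c = 0 := h.oriented A i c hc hi
      have h2 : H.tr A (opL h.action g A c) = 0 := h.oriented A i _ (h.degrees A g i c hc) hi
      rw [h1, h2, mul_zero]
  | zero => rw [map_zero, map_zero, mul_zero]
  | add x y _ _ hx hy => rw [map_add, map_add, map_add, hx, hy, mul_add]

/-- the cohomology is generated by the classes of cycles and a stable subspace on which the operation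
has eigenvalues in `S` -/
def Cp (F : Module.End K (H.A A)) (S : Set K) : Prop :=
  ∃ (T : Submodule K (H.A A)) (hT : ∀ t ∈ T, F t ∈ T), AT H A ⊔ T = ⊤ ∧
    ∀ α, Module.End.HasEigenvalue (F.restrict hT) α → α ∈ S

include hg in
/-- **the pairing is nondegenerate** -/
theorem nondeg_op (hQ : 1 < Q) {S : Set K} (hcv : Cp (opL h.action g A) S)
    (hS : ∀ α ∈ S, ∀ w : ℕ, α ≠ (Q : K) ^ w) : Nondeg H A := by
  have hfin := h.standard.finite A
  obtain ⟨T, hT, hPT, hTS⟩ := hcv
  intro n hn c hc h0
  have hQK : (Q : K) ≠ 0 := by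
    have : Q ≠ 0 := by omega
    exact_mod_cast this
  apply H.nondeg
  intro y
  have hy : y ∈ AT H A ⊔ T := by rw [hPT]; trivial
  obtain ⟨a, ha, t, ht, rfl⟩ := Submodule.mem_sup.1 hy
  change H.tr A (c * (a + t)) = 0
  rw [mul_add, map_add]
  have h1 : H.tr A (c * a) = 0 := by
    unfold AT at ha
    clear hy
    induction ha using Submodule.span_induction with
    | mem a ha =>
      obtain ⟨m, D, hD, rfl⟩ := ha
      have hDm : H.cl D ∈ AK H A m := Submodule.subset_span ⟨D, hD, rfl⟩
      by_cases hm : m = A.dim - n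
      · subst hm
        exact h0 _ hDm
      · have h2 := tr_op h hg (by omega : 0 < Q) (c * H.cl D)
        rw [opL_mul h, AK_op h hg hc, AK_op h hg hDm, smul_mul_smul_comm, map_smul,
          smul_eq_mul] at h2
        have h3 : ((Q : K) ^ n * (Q : K) ^ m - (Q : K) ^ A.dim) * H.tr A (c * H.cl D) = 0 := by
          rw [sub_mul, h2, sub_self]
        rcases mul_eq_zero.1 h3 with h4 | h4
        · exfalso
          apply hm
          have h5 : ((Q ^ (n + m) : ℕ) : K) = ((Q ^ A.dim : ℕ) : K) := by
            push_cast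
            rw [pow_add]
            exact sub_eq_zero.1 h4
          have h6 := Nat.pow_right_injective hQ (Nat.cast_injective h5)
          omega
        · exact h4
    | zero => rw [mul_zero, map_zero]
    | add x y _ _ hx hy => rw [mul_add, map_add, hx, hy, add_zero]
    | smul r x _ hx => rw [mul_smul_comm, map_smul, hx, smul_zero]
  have h2 : H.tr A (c * t) = 0 := by
    have h3 : ¬ Module.End.HasEigenvalue ((opL h.action g A).restrict hT)
        ((Q : K) ^ (A.dim - n)) := fun h0 => hS _ (hTS _ h0) _ rfl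
    have h4 : Function.Injective ((opL h.action g A).restrict hT -
        ((Q : K) ^ (A.dim - n)) • (1 : Module.End K T)) := by
      rw [← LinearMap.ker_eq_bot]
      have h5 : Module.End.eigenspace ((opL h.action g A).restrict hT)
          ((Q : K) ^ (A.dim - n)) = ⊥ := by
        by_contra h6
        exact h3 h6
      rw [Module.End.eigenspace_def] at h5
      exact h5
    have hfT : Module.Finite K T := inferInstance
    obtain ⟨s, hs⟩ := LinearMap.injective_iff_surjective.1 h4 ⟨t, ht⟩
    have h5 : opL h.action g A s.1 - (Q : K) ^ (A.dim - n) • s.1 = t := congrArg Subtype.val hs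
    rw [← h5, mul_sub, map_sub, mul_smul_comm, map_smul, smul_eq_mul, sub_eq_zero]
    have h6 := tr_op h hg (by omega : 0 < Q) (c * s.1)
    rw [opL_mul h, AK_op h hg hc, smul_mul_assoc, map_smul, smul_eq_mul] at h6
    have h7 : (Q : K) ^ A.dim = (Q : K) ^ n * (Q : K) ^ (A.dim - n) := by
      rw [← pow_add]
      congr 1
      omega
    rw [h7, mul_assoc] at h6
    exact mul_left_cancel₀ (pow_ne_zero _ hQK) h6
  rw [h1, h2, add_zero]

theorem kt_opL (u : H.A A ⊗[K] H.A Z) :
    opL h.action g (A.prod Z) (kt H A Z u) =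
      kt H A Z (TensorProduct.map (opL h.action g A) (opL h.action g Z) u) := by
  induction u using TensorProduct.induction_on with
  | zero => simp only [map_zero]
  | tmul a b => exact opL_ext h a b
  | add x y hx hy => simp only [map_add, hx, hy]

variable [IsAlgClosed K]

include hg in
/-- **Tate classes lie in the mixed part.** -/
theorem mem_mixA_op (hQ : 1 < Q) {S : Set K} (hcv : Cp (opL h.action g A) S) (i : ℤ)
    (hres : ∀ α ∈ S, ∀ β, (opL h.action g Z).HasEigenvalue β → α * β ≠ (Q : K) ^ i)
    (w : H.A (A.prod Z)) (hw : opL h.action g (A.prod Z) w = (Q : K) ^ i • w) :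
    w ∈ mixA H A Z := by
  have hS := isStandard_bridge h.standard
  have := hS.finite A
  have := hS.finite Z
  obtain ⟨T, hT, hPT, hTS⟩ := hcv
  obtain ⟨u, rfl⟩ := kt_surjective hS w
  have h1 : Pool.Agent.W484.CH.op
      (TensorProduct.map (opL h.action g A) (opL h.action g Z)) ((Q : K) ^ i) 1 u = 0 := by
    unfold Pool.Agent.W484.CH.op
    rw [pow_one, LinearMap.sub_apply, LinearMap.smul_apply, Module.End.one_apply, sub_eq_zero]
    apply kt_injective hS
    rw [← kt_opL h, hw, map_smul]
  have hQK : (Q : K) ≠ 0 := by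
    have : Q ≠ 0 := by omega
    exact_mod_cast this
  obtain ⟨u', rfl⟩ := mem_of_gen (AT_op h hg) hT hPT (zpow_ne_zero i hQK)
    (fun α β hα hβ => hres α (hTS α hα) β hβ) h1
  exact kt_range u'

/-- the eigenvalues on the product -/
theorem eig_op {μ : K} (h0 : (opL h.action g (A.prod Z)).HasEigenvalue μ) :
    ∃ α β : K, (opL h.action g A).HasEigenvalue α ∧ (opL h.action g Z).HasEigenvalue β ∧
      μ = α * β := by
  have hS := isStandard_bridge h.standard
  have := hS.finite A
  have := hS.finite Z
  obtain ⟨w, hw⟩ := h0.exists_hasEigenvector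
  obtain ⟨u, rfl⟩ := kt_surjective hS w
  have hu0 : u ≠ 0 := by
    rintro rfl
    exact hw.2 (map_zero _)
  have h1 : (TensorProduct.map (opL h.action g A) (opL h.action g Z)) u = μ • u := by
    apply kt_injective hS
    rw [← kt_opL h, map_smul]
    exact hw.apply_eq_smul
  obtain ⟨α, β, hα, hβ, hαβ⟩ := Pool.Agent.N876.FL.eig_tensor (m := 1) hu0
    (by rw [pow_one]; exact h1)
  exact ⟨α, β, hα, hβ, by rw [← hαβ, pow_one]⟩

end Pool.Agent.U173.OP
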