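import Pool.Agent.U173.SL.Pair
import Pool.Agent.U173.PS.Num

/-!
# One Weil number with a slope field and several others
-/

set_option autoImplicit false

namespace Pool.Agent.U173.SL

section group

variable {G : Type*} [Group G] [Fintype G] {R : Type*} [AddCommGroup R] [Module ℚ R]

/-- **The star lemma.** The function `f i₀` is invariant under `H i₀`, and odd with respect to `c`; the
sum of the functions is invariant under `K`. -/
theorem star {I : Type*} [DecidableEq I] (s : Finset I) (H : I → Subgroup G) (K : Subgroup G)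
    (c : G) (i₀ : I) (hi₀ : i₀ ∈ s)
    (hN : (∃ j ∈ s, j ≠ i₀) → ∀ k : G, (k = c ∨ k ∈ K ∨ ∃ j ∈ s, k ∈ H j) →
      ∀ h ∈ H i₀, k⁻¹ * h * k ∈ H i₀)
    (hc : ∀ j ∈ s, i₀ ≠ j → c ∈ H i₀ ⊔ H j) (hK : c ∈ H i₀ ⊔ K)
    (f : I → G → R) (hf : ∀ i ∈ s, H i ≤ leftStab (f i)) (ho : ∀ i ∈ s, ∀ g, f i (c * g) = - f i g)
    (hs : K ≤ leftStab (fun g => ∑ i ∈ s, f i g)) : ∀ g, f i₀ g = 0 := by
  classical
  by_cases hex : ∃ j ∈ s, j ≠ i₀
  · have hN := hN hex
    -- the traces of the other functions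
    have h1 : ∀ j ∈ s, j ≠ i₀ → ∀ g, tr (H i₀) (f j) g = 0 := by
      intro j hj hji
      refine eq_zero_of_odd (c := c) ?_ ?_
      · have h2 : H i₀ ⊔ H j ≤ leftStab (tr (H i₀) (f j)) := by
          refine sup_le (tr_stab_self _ _) ?_
          intro k hk g
          exact tr_comm (hN k (Or.inr (Or.inr ⟨j, hj, hk⟩))) (hf j hj hk) g
        exact h2 (hc j hj hji.symm)
      · intro g
        rw [tr_comm (f' := fun g => - f j g) (hN c (Or.inl rfl)) (ho j hj)]
        unfold tr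
        rw [Finset.sum_neg_distrib]
    have h2 : ∀ g, tr (H i₀) (fun g => ∑ j ∈ s, f j g) g = (Nat.card (H i₀) : ℚ) • f i₀ g := by
      intro g
      have h3 : tr (H i₀) (fun g => ∑ j ∈ s, f j g) g = ∑ j ∈ s, tr (H i₀) (f j) g := by
        unfold tr
        exact Finset.sum_comm
      rw [h3, Finset.sum_eq_single_of_mem i₀ hi₀ (fun j hj hji => h1 j hj hji g),
        tr_of_le (hf i₀ hi₀)]
    have hcard : (Nat.card (H i₀) : ℚ) ≠ 0 := by exact_mod_cast Nat.card_pos.ne'
    refine eq_zero_of_odd (c := c) ?_ (ho i₀ hi₀)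
    have h3 : H i₀ ⊔ K ≤ leftStab (f i₀) := by
      refine sup_le (hf i₀ hi₀) ?_
      intro k hk g
      have h4 := tr_comm (f := fun g => ∑ j ∈ s, f j g) (f' := fun g => ∑ j ∈ s, f j g)
        (hN k (Or.inr (Or.inl hk))) (hs hk) g
      rw [h2, h2] at h4
      exact smul_right_injective R hcard h4
    exact h3 hK
  · refine eq_zero_of_odd (c := c) ?_ (ho i₀ hi₀)
    have h3 : H i₀ ⊔ K ≤ leftStab (f i₀) := by
      refine sup_le (hf i₀ hi₀) ?_
      intro k hk g
      have h4 := hs hk g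
      have h5 : ∀ g, ∑ j ∈ s, f j g = f i₀ g := fun g =>
        Finset.sum_eq_single_of_mem i₀ hi₀ (fun j hj hji => absurd ⟨j, hj, hji⟩ hex)
      change ∑ j ∈ s, f j (k * g) = ∑ j ∈ s, f j g at h4
      rw [h5, h5] at h4
      exact h4
    exact h3 hK

end group

open Polynomial Pool.Agent.TH121.KT

noncomputable section

variable {p : ℕ} [Fact p.Prime] {ι : Qb →+* PadicAlgCl p}

/-- **The main lemma for one field and several others.** -/
theorem core_star {I : Type*} [DecidableEq I] {K : IntermediateField ℚ Qb}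
    (hK : ∀ z ∈ K, IsTotallyReal z) {L : I → IntermediateField ℚ Qb} {s : Finset I} {i₀ : I}
    (hi₀ : i₀ ∈ s) (hle : ∀ i ∈ s, K ≤ L i) (hnormal : (∃ j ∈ s, j ≠ i₀) → IsNormalOver K (L i₀))
    (hmeet : ∀ j ∈ s, i₀ ≠ j → MeetInReal (L i₀) (L j))
    {M : IntermediateField ℚ Qb} (hKM : K ≤ M) (hM : MeetInReal (L i₀) M)
    {x : I → Qb} (hx : ∀ i ∈ s, Det ι (L i) (x i)) {m w : I → ℕ}
    (hW : ∀ i ∈ s, IsWeilNumber (p ^ m i) (w i) (x i)) (hprod : Det ι M (∏ i ∈ s, x i)) :
    ∃ N : ℕ, 0 < N ∧ x i₀ ^ (2 * N) = (p : Qb) ^ (m i₀ * w i₀ * N) := by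
  classical
  have hp : p.Prime := Fact.out
  -- a finite Galois extension which contains the `x i`
  let F : IntermediateField ℚ Qb :=
    IntermediateField.normalClosure ℚ (IntermediateField.adjoin ℚ ((fun i => x i) '' (s : Set I))) Qb
  have hfd : FiniteDimensional ℚ (IntermediateField.adjoin ℚ ((fun i => x i) '' (s : Set I))) :=
    IntermediateField.finiteDimensional_adjoin fun y _ => Algebra.IsIntegral.isIntegral y
  have hF : FiniteDimensional ℚ F := normalClosure.is_finiteDimensional _ _ _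
  have hn : Normal ℚ F := normalClosure.normal ℚ _ _
  have hxF : ∀ i ∈ s, x i ∈ F := fun i hi => (IntermediateField.le_normalClosure _)
    (IntermediateField.subset_adjoin ℚ _ ⟨i, hi, rfl⟩)
  let π : GQ →* (F ≃ₐ[ℚ] F) := AlgEquiv.restrictNormalHom F
  have hπ : Function.Surjective π := AlgEquiv.restrictNormalHom_surjective Qb
  have hπx : ∀ (g : GQ) (z : F), ((π g z : F) : Qb) = g z := fun g z =>
    AlgEquiv.restrictNormal_commutes g F z
  let sec : (F ≃ₐ[ℚ] F) → GQ := Function.surjInv hπ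
  have hsec : ∀ σ, π (sec σ) = σ := Function.surjInv_eq hπ
  have hfin : Fintype (F ≃ₐ[ℚ] F) := Fintype.ofFinite _
  let f : I → (F ≃ₐ[ℚ] F) → ℝ := fun i σ => lg ι (m i * w i) (x i) (sec σ)
  have hf : ∀ i ∈ s, ∀ g : GQ, f i (π g) = lg ι (m i * w i) (x i) g := by
    intro i hi g
    have h1 : sec (π g) (x i) = g (x i) := by
      rw [← hπx g ⟨x i, hxF i hi⟩, ← hπx (sec (π g)) ⟨x i, hxF i hi⟩, hsec]
    change lg ι (m i * w i) (x i) (sec (π g)) = _
    unfold lg
    rw [h1]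
  let φ : Qb →+* ℂ := (IsAlgClosed.lift : Qb →ₐ[ℚ] ℂ).toRingHom
  obtain ⟨c, hc⟩ := exists_conj φ
  have hker : F.fixingSubgroup ≤ π.ker := by
    intro g hg
    rw [MonoidHom.mem_ker]
    refine AlgEquiv.ext fun z => Subtype.ext ?_
    rw [hπx]
    exact hg z
  have hcm : ∀ {L' M' : IntermediateField ℚ Qb}, MeetInReal L' M' →
      π c ∈ L'.fixingSubgroup.map π ⊔ M'.fixingSubgroup.map π := by
    intro L' M' h
    have h1 : c ∈ (L'.fixingSubgroup.map π ⊔ M'.fixingSubgroup.map π).comap π := by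
      refine conj_mem_of_closed h ?_ ?_ ?_ hc
      · apply Subgroup.isClosed_of_isOpen
        refine Subgroup.isOpen_mono (H₁ := F.fixingSubgroup) ?_
          (IntermediateField.fixingSubgroup_isOpen F)
        exact hker.trans (MonoidHom.ker_le_comap π _)
      · exact Subgroup.map_le_iff_le_comap.1 le_sup_left
      · exact Subgroup.map_le_iff_le_comap.1 le_sup_right
    exact h1
  have hcK : ∀ z ∈ K, c z = z := by
    intro z hz
    apply φ.injective
    rw [hc]
    exact hK z hz φ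
  have hnorm : (∃ j ∈ s, j ≠ i₀) → ∀ k : GQ, (∀ z ∈ K, k z = z) →
      ∀ h ∈ (L i₀).fixingSubgroup.map π, (π k)⁻¹ * h * π k ∈ (L i₀).fixingSubgroup.map π := by
    intro hex k hk h hh
    obtain ⟨h0, hh0, rfl⟩ := hh
    refine ⟨k⁻¹ * h0 * k, ?_, by rw [map_mul, map_mul, map_inv]⟩
    refine mem_fixing.2 fun z hz => ?_
    have h1 : k z ∈ L i₀ := (hnormal hex).2 k hk z hz
    change k⁻¹ (h0 (k z)) = z
    rw [mem_fixing.1 hh0 _ h1]
    change (k⁻¹ * k) z = z
    rw [inv_mul_cancel]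
    rfl
  have hall := star s (fun i => (L i).fixingSubgroup.map π) (M.fixingSubgroup.map π) (π c) i₀ hi₀
    (by
      intro hex k hk h hh
      obtain ⟨k0, rfl, hk0⟩ : ∃ k0 : GQ, π k0 = k ∧ ∀ z ∈ K, k0 z = z := by
        rcases hk with rfl | hk | ⟨j, hj, hk⟩
        · exact ⟨c, rfl, hcK⟩
        · obtain ⟨k0, hk0, rfl⟩ := hk
          exact ⟨k0, rfl, fun z hz => mem_fixing.1 hk0 z (hKM hz)⟩
        · obtain ⟨k0, hk0, rfl⟩ := hk
          exact ⟨k0, rfl, fun z hz => mem_fixing.1 hk0 z (hle j hj hz)⟩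
      exact hnorm hex k0 hk0 h hh)
    (fun j hj hij => hcm (hmeet j hj hij)) (hcm hM) f
    (by
      intro i hi h hh σ
      obtain ⟨h0, hh0, rfl⟩ := hh
      obtain ⟨g, rfl⟩ := hπ σ
      rw [← map_mul, hf i hi, hf i hi]
      unfold lg
      change 2 * Real.log ‖ι (h0 (g (x i)))‖ - _ = _
      rw [hx i hi h0 (mem_fixing.1 hh0) g])
    (by
      intro i hi σ
      obtain ⟨g, rfl⟩ := hπ σ
      rw [← map_mul, hf i hi, hf i hi]
      have h1 : g (x i) * c (g (x i)) = (p : Qb) ^ (m i * w i) := by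
        apply φ.injective
        rw [map_mul, hc, Complex.mul_conj, Complex.normSq_eq_norm_sq, weil_conj (hW i hi) φ g,
          map_pow, map_natCast]
        push_cast
        rw [← pow_mul]
      have h2 : ‖ι (g (x i))‖ * ‖ι (c (g (x i)))‖ = ‖(p : PadicAlgCl p)‖ ^ (m i * w i) := by
        rw [← norm_mul, ← map_mul, h1, map_pow, map_natCast, norm_pow]
      have hx0 := weil_ne_zero (hW i hi)
      have h3 := congrArg Real.log h2
      have h4 : ‖ι (c (g (x i)))‖ ≠ 0 := norm_conj_ne hx0 (c * g)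
      rw [Real.log_mul (norm_conj_ne hx0 g) h4, Real.log_pow] at h3
      unfold lg
      change 2 * Real.log ‖ι (c (g (x i)))‖ - _ = _
      linarith)
    (by
      intro h hh σ
      obtain ⟨h0, hh0, rfl⟩ := hh
      obtain ⟨g, rfl⟩ := hπ σ
      have hsum : ∀ g : GQ, ∑ i ∈ s, f i (π g) = 2 * Real.log ‖ι (g (∏ i ∈ s, x i))‖ -
          ∑ i ∈ s, ((m i * w i : ℕ) : ℝ) * Real.log ‖(p : PadicAlgCl p)‖ := by
        intro g
        have h1 : Real.log ‖ι (g (∏ i ∈ s, x i))‖ = ∑ i ∈ s, Real.log ‖ι (g (x i))‖ := by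
          rw [map_prod, map_prod, norm_prod, Real.log_prod]
          exact fun i hi => norm_conj_ne (weil_ne_zero (hW i hi)) g
        rw [h1, Finset.mul_sum, ← Finset.sum_sub_distrib]
        exact Finset.sum_congr rfl fun i hi => hf i hi g
      change ∑ i ∈ s, f i (π h0 * π g) = ∑ i ∈ s, f i (π g)
      rw [← map_mul, hsum, hsum]
      change 2 * Real.log ‖ι (h0 (g (∏ i ∈ s, x i)))‖ - _ = _
      rw [hprod h0 (mem_fixing.1 hh0) g])
  refine torsion_of_slopes (ι := ι) (hW i₀ hi₀) fun g => ?_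
  have h1 := hall (π g)
  rw [hf i₀ hi₀] at h1
  unfold lg at h1
  have h2 := norm_conj_ne (ι := ι) (weil_ne_zero (hW i₀ hi₀)) g
  have h3 : (0 : ℝ) < ‖(p : PadicAlgCl p)‖ := by
    rw [norm_pos_iff]
    exact_mod_cast hp.ne_zero
  have h4 : Real.log (‖ι (g (x i₀))‖ ^ 2) = Real.log (‖(p : PadicAlgCl p)‖ ^ (m i₀ * w i₀)) := by
    rw [Real.log_pow, Real.log_pow]
    push_cast at h1 ⊢
    linarith
  exact Real.log_injOn_pos (Set.mem_Ioi.2 (by positivity)) (Set.mem_Ioi.2 (by positivity)) h4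

end

end Pool.Agent.U173.SL

namespace Pool.Agent.U173.PS

open Pool.Agent.U173.SL Pool.Agent.TH121.KT

variable {p : ℕ} [Fact p.Prime] {ι : Qb →+* PadicAlgCl p}

/-- **No resonances, one number with slope field `L` and several others.** -/
theorem no_relation_star {Ω : Type*} [Field Ω] [CharZero Ω] [IsAlgClosed Ω]
    {K L M : IntermediateField ℚ Qb} (hK : ∀ z ∈ K, IsTotallyReal z) (hKL : K ≤ L) (hKM : K ≤ M)
    (hM : MeetInReal L M) {m : ℕ} {α : Ω} (hα : IsGoodNumber p m ι L α)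
    {Y : List Ω} (hn : Y ≠ [] → IsNormalOver K L)
    (hY : ∀ y ∈ Y, ∃ N : IntermediateField ℚ Qb, K ≤ N ∧ MeetInReal L N ∧ HasSlopesIn p ι N y ∧
      ∃ w, IsWeilNumber (p ^ m) w y) {β : Ω} (hβ : HasSlopesIn p ι M β) (C : ℤ) :
    α * Y.prod * β ≠ (p : Ω) ^ C := by
  classical
  intro hrel
  let τ : Qb →+* Ω := (IsAlgClosed.lift : Qb →ₐ[ℚ] Ω).toRingHom
  obtain ⟨b, hτb, hb⟩ := exists_preimage τ hβ
  obtain ⟨a, hτa, ha⟩ := exists_preimage τ hα.slopes
  obtain ⟨w₀, hw₀⟩ := hα.weil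
  have hY' : ∀ j : Fin Y.length, ∃ (N : IntermediateField ℚ Qb) (y : Qb) (w : ℕ), K ≤ N ∧
      MeetInReal L N ∧ τ y = Y[j] ∧ Det ι N y ∧ IsWeilNumber (p ^ m) w y := by
    intro j
    obtain ⟨N, h1, h2, h3, w, h4⟩ := hY _ (List.getElem_mem j.2)
    obtain ⟨y, hy, hdy⟩ := exists_preimage τ h3
    exact ⟨N, y, w, h1, h2, hy, hdy, weil_lift τ hy h4⟩
  choose N y w h1 h2 h3 h4 h5 using hY'
  let Lo : Option (Fin Y.length) → IntermediateField ℚ Qb := fun o => o.elim L N
  let xo : Option (Fin Y.length) → Qb := fun o => o.elim a y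
  let wo : Option (Fin Y.length) → ℕ := fun o => o.elim w₀ w
  have hprodY : τ (∏ j, y j) = Y.prod := by
    rw [map_prod, Finset.prod_congr rfl (fun j _ => h3 j), ← Fin.prod_univ_getElem]
    rfl
  have hprod : ∏ i, xo i = a * ∏ j, y j := Fintype.prod_option xo
  have hrel' : (∏ i, xo i) ^ 1 * b ^ 1 = (p : Qb) ^ C := by
    apply τ.injective
    rw [hprod, pow_one, pow_one, map_mul, map_mul, hτa, hτb, hprodY, hrel, map_zpow₀, map_natCast]
  obtain ⟨N', hN', h⟩ := core_star (ι := ι) hK (L := Lo) (s := Finset.univ) (i₀ := none)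
    (Finset.mem_univ _) (by
      rintro (_ | j) -
      · exact hKL
      · exact h1 j) (by
      rintro ⟨(_ | j), -, hj⟩
      · exact absurd rfl hj
      · refine hn ?_
        intro h0
        have h6 : Y.length = 0 := by rw [h0]; rfl
        have h7 := j.2
        omega) (by
      rintro (_ | j) - hj
      · exact absurd rfl hj
      · exact h2 j) hKM hM (x := xo) (by
      rintro (_ | j) -
      · exact ha
      · exact h4 j) (m := fun _ => m) (w := wo) (by
      rintro (_ | j) -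
      · exact weil_lift τ hτa hw₀
      · exact h5 j) (det_mul_pow hb one_pos hrel')
  refine hα.not_supersingular (2 * N') ((m * w₀ * N' : ℕ) : ℤ) (by positivity) ?_
  change a ^ (2 * N') = (p : Qb) ^ (m * w₀ * N') at h
  rw [← hτa, ← map_pow, h, map_pow, map_natCast, zpow_natCast]

end Pool.Agent.U173.PS
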