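import Pool.Agent.U173.OP.Lin
import Pool.Agent.U173.OP.Star

/-!
# The Tate conjecture over finitely generated fields from one place for each factor
-/

set_option autoImplicit false
set_option linter.unusedSectionVars false

open Polynomial CategoryTheory AlgebraicGeometry

namespace Pool.Agent.U173.OP

open Pool.Agent.H914 Pool.Agent.H914.VarClass Pool.Agent.H914.VarClass.Obj Pool.Agent.W492.BB
  Pool.Agent.W484.CK Pool.Agent.N166.MU Pool.Agent.N166.TT Pool.Agent.N876.CG Pool.Agent.W550.Corr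
  Pool.Agent.TH133 Pool.Agent.N166.DF Pool.Agent.U231.FR.Base Pool.Agent.U173.SL
  Pool.Agent.U173.PS Pool.Agent.TH121.KT

variable {k : Type} [Field k] {𝒱 : VarClass k} {C : TheoryData.{0, 0, 0} 𝒱 ℚ} [hC : IsChow C]
  {K : Type} [Field K] [CharZero K] {H : WeilTheoryData.{0, 0, 0} C K} [hH : IsWeil H] {G : Type}
  {ρ : Operations H G}

section step

variable (h : IsArithmetic ρ) {g : G} {Q : ℕ} (hg : ρ.χ g = (Q : K)) {A Z : 𝒱.Obj} [IsAlgClosed K]

include hg in
/-- **One step.** -/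
theorem gen_of_res (hQ : 1 < Q) {S : Set K} (hcv : Cp (opL h.action g A) S)
    (hS1 : ∀ α ∈ S, ∀ w : ℕ, α ≠ (Q : K) ^ w)
    (hres : ∀ α ∈ S, ∀ β, (opL h.action g Z).HasEigenvalue β → ∀ i : ℤ, α * β ≠ (Q : K) ^ i) :
    ∃ (J : Type) (_ : Fintype J) (deg : J → ℕ) (D E : J → C.A A), GenHom H A Z deg D E ∧
      ∀ (i : ℤ) (w : H.A (A.prod Z)), IsTate ρ (A.prod Z) i w → ∃ h : J → H.A Z,
        w = ∑ j, H.ext (H.cl (D j)) (h j) := by
  have hC1 : IsChowProj C := isChowProj_of h.normalized h.standard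
  have hH1 : IsWeilProj H := isWeilProj_of h.standard h.oriented
  obtain ⟨J, hJ, deg, D, E, hdual, hN⟩ := exists_dual (isStandard_bridge h.standard)
    (nondeg_op h hg hQ hcv hS1) Z
  have hK : ∀ (i : ℤ) (w : H.A (A.prod Z)), opL h.action g (A.prod Z) w = (Q : K) ^ i • w →
      H.act (H.cl (Pool.Agent.W484.CH.proj Z D E)) w = w := fun i w hw =>
    act_proj_mixA hdual hN (mem_mixA_op h hg hQ hcv i (fun α hα β hβ => hres α hα β hβ i) w hw)
  refine ⟨J, hJ, deg, D, E, ⟨hdual.left, hdual.right, fun j => eq_of_dual h.standard hdual j,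
    fun i j hij => ne_of_dual h.standard hdual i j hij, fun i x hx => ?_⟩, fun i w hw => ?_⟩
  · refine ⟨fun j => coef (E j) x, fun j => coef_mem (hdual.right j) hx (by ring), ?_⟩
    have h1 := hK i (H.cl x) (by
      have h2 := h.action.cl (A.prod Z) g i x hx
      rw [hg] at h2
      exact h2)
    have h2 := Pool.Agent.W484.CH.eq_sum_of_act h1
    rw [h2, map_sum]
    refine Finset.sum_congr rfl fun j _ => ?_
    rw [← cl_act H, ← cl_act H, Pool.Agent.W484.CH.act_extBy, Pool.Agent.W484.CH.act_pairBy]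
    rfl
  · have h1 := hK i w (by
      have h2 := hw.2 g
      rw [hg] at h2
      exact h2)
    have h2 := Pool.Agent.W484.CH.eq_sum_of_act h1
    refine ⟨fun j => H.act (H.cl (Pool.Agent.W484.CH.pairBy C Z (E j))) w, ?_⟩
    have h3 : ∀ (j : J) (z : H.A Z), H.act (H.cl (Pool.Agent.W484.CH.extBy C Z (D j))) z =
        H.ext (H.cl (D j)) z := by
      intro j z
      have h4 : H.cl (Pool.Agent.W484.CH.extBy C Z (D j)) =
          Pool.Agent.W484.CH.extBy H.toTheoryData Z (H.cl (D j)) := by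
        rw [Pool.Agent.W484.CH.extBy, Pool.Agent.W484.CH.extBy, H.cl_push, H.cl_pull]
      rw [h4, Pool.Agent.W484.CH.act_extBy]
    rw [h2]
    refine Finset.sum_congr rfl fun j _ => ?_
    rw [h3, ← h2]

include hg in
/-- **The conclusions of one step.** -/
theorem step (hQ : 1 < Q) {S : Set K} (hcv : Cp (opL h.action g A) S)
    (hS1 : ∀ α ∈ S, ∀ w : ℕ, α ≠ (Q : K) ^ w)
    (hres : ∀ α ∈ S, ∀ β, (opL h.action g Z).HasEigenvalue β → ∀ i : ℤ, α * β ≠ (Q : K) ^ i) :
    IsDetermined ρ A Z ∧ (∀ i : ℕ, IsSpanned ρ (A.prod Z) i ↔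
        ∀ m : ℕ, m ≤ i → i ≤ m + A.dim → IsSpanned ρ Z m) ∧
      ((∀ i, RankEquality ρ (A.prod Z) i) ↔ ∀ i, RankEquality ρ Z i) := by
  have hC1 : IsChowProj C := isChowProj_of h.normalized h.standard
  have hH1 : IsWeilProj H := isWeilProj_of h.standard h.oriented
  obtain ⟨J, hJ, deg, D, E, hG, hT⟩ := gen_of_res h hg hQ hcv hS1 hres
  have hρ := h.action
  refine ⟨⟨J, hJ, deg, D, hG.left, fun i x hx => ?_, fun i w hw => ?_⟩,
    isSpanned_iff hρ hG hT, rankEquality_all_iff hρ hG hT⟩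
  · refine ⟨fun j => coef (E j) x, ⟨fun j => coef_mem' H hG hx j, expand H hG hx⟩,
      fun z' hz' j => ?_⟩
    have h1 : H.cl x = H.cl (∑ j, C.ext (D j) (z' j)) := hz'
    change H.cl (coef (E j) x) = H.cl (z' j)
    rw [cl_coef', h1, ← cl_coef']
    exact congrArg H.cl (Pool.Agent.N166.DF.coef_gen H hG z' j)
  · refine ⟨fun j => coefH H (E j) w, ⟨fun j => isTate_coef hρ hG hw j,
      expandT hρ hG hT hw⟩, fun h' hh => ?_⟩
    funext j
    have h1 := coefH_gen hρ hG h' j
    have h2 : w = ∑ j, H.ext (H.cl (D j)) (h' j) := hh.2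
    rw [← h2] at h1
    exact h1.symm

end step

/-- the numbers which are Weil numbers and have a slope field which meets `L` in a real field -/
def Apart (v : Place G) (E L : IntermediateField ℚ Qb) (y : K) : Prop :=
  ∃ N : IntermediateField ℚ Qb, E ≤ N ∧ MeetInReal L N ∧ HasSlopesIn v.p v.ι N y ∧
    ∃ w, IsWeilNumber (v.p ^ v.m) w y

theorem hasEigenvalue_iff (h : IsArithmetic ρ) (g : G) (X : 𝒱.Obj) (α : K) :
    (opL h.action g X).HasEigenvalue α ↔ ∃ a : H.A X, a ≠ 0 ∧ ρ.op X g a = α • a := by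
  constructor
  · intro h1
    obtain ⟨a, ha⟩ := h1.exists_hasEigenvector
    exact ⟨a, ha.2, ha.apply_eq_smul⟩
  · rintro ⟨a, ha, h1⟩
    exact Module.End.hasEigenvalue_of_hasEigenvector (x := a)
      (Module.End.hasEigenvector_iff.2 ⟨Module.End.mem_eigenspace_iff.2 h1, ha⟩)

variable {I I' : Type} {X : I → 𝒱.Obj} {Y : I' → 𝒱.Obj} {Z : 𝒱.Obj}

/-- the eigenvalues on the products -/
theorem eig_list [IsAlgClosed K] (h : IsArithmetic ρ) (g : G) (S : Set K) (l : List I)
    (hS : ∀ j ∈ l, ∀ α, (opL h.action g (X j)).HasEigenvalue α → α ∈ S) :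
    ∀ γ, (opL h.action g (productOf X Z l)).HasEigenvalue γ →
      ∃ (y : List K) (β : K), (y ≠ [] → l ≠ []) ∧ (∀ a ∈ y, a ∈ S) ∧
        (opL h.action g Z).HasEigenvalue β ∧ γ = y.prod * β := by
  induction l with
  | nil =>
    intro γ hγ
    exact ⟨[], γ, fun h => absurd rfl h, by simp, hγ, by rw [List.prod_nil, one_mul]⟩
  | cons i l ih =>
    intro γ hγ
    obtain ⟨α, β', hα, hβ', rfl⟩ := eig_op h hγ
    obtain ⟨y, β, -, hy, hβ, rfl⟩ := ih (fun j hj => hS j (List.mem_cons_of_mem _ hj)) β' hβ'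
    refine ⟨α :: y, β, fun _ => List.cons_ne_nil _ _, ?_, hβ, by rw [List.prod_cons, mul_assoc]⟩
    intro a ha
    rcases List.mem_cons.1 ha with rfl | ha
    · exact hS i List.mem_cons_self a hα
    · exact hy a ha

variable {v : I → Place G} {E L : I → IntermediateField ℚ (AlgebraicClosure ℚ)} {l' : List I'}

theorem apart_of (h : IsArithmetic ρ) {v : Place G} {E L : IntermediateField ℚ Qb} {W : 𝒱.Obj}
    (hW : IsApart ρ v E L W) : ∀ α, (opL h.action v.σ W).HasEigenvalue α → Apart v E L α := by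
  intro α hα
  obtain ⟨-, h2, N, h3, h4, h5⟩ := hW
  obtain ⟨a, ha, ha'⟩ := (hasEigenvalue_iff h _ _ _).1 hα
  exact ⟨N, h3, h4, h5 α a ha ha', h2 α a ha ha'⟩

/-- **The step in a system.** -/
theorem system_step [IsAlgClosed K] (h : IsArithmetic ρ) {i : I} {l : List I}
    (hsys : IsSystem ρ v E L X Y Z (i :: l) l') :
    IsDetermined ρ (X i) (productOf X (productOf Y Z l') l) ∧
      (∀ n : ℕ, IsSpanned ρ (productOf X (productOf Y Z l') (i :: l)) n ↔
        ∀ m : ℕ, m ≤ n → n ≤ m + (X i).dim →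
          IsSpanned ρ (productOf X (productOf Y Z l') l) m) ∧
      ((∀ n, RankEquality ρ (productOf X (productOf Y Z l') (i :: l)) n) ↔
        ∀ n, RankEquality ρ (productOf X (productOf Y Z l') l) n) := by
  obtain ⟨hpos, hchar, hreal, hle, hgood, hpairs, hothers, hbase⟩ := hsys
  rw [List.pairwise_cons] at hpairs
  have hp : (v i).p.Prime := (v i).prime.out
  obtain ⟨T, hT, htop, hTS⟩ := hgood i
  obtain ⟨M, hEM, hLM, hM⟩ := hbase i
  have hg : ρ.χ (v i).σ = (((v i).p ^ (v i).m : ℕ) : K) := by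
    rw [hchar]
    push_cast
    rfl
  refine step h hg (Nat.one_lt_pow (hpos i).ne' hp.one_lt)
    (S := {α | IsGoodNumber (v i).p (v i).m (v i).ι (L i) α}) ⟨T, hT, ?_, ?_⟩ ?_ ?_
  · have h1 : AT H (X i) = cycleSpan H (X i) := rfl
    rw [h1, htop]
  · intro α hα
    obtain ⟨t, ht⟩ := hα.exists_hasEigenvector
    refine hTS α t.1 t.2 (fun h0 => ht.2 (Subtype.ext h0)) ?_
    exact congrArg Subtype.val ht.apply_eq_smul
  · intro α hα w heq
    refine hα.not_supersingular 1 ((v i).m * w : ℕ) one_pos ?_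
    rw [pow_one, heq, zpow_natCast, pow_mul]
    push_cast
    rfl
  · intro α hα γ hγ n heq
    obtain ⟨y, β', hne, hy, hβ', rfl⟩ := eig_list h (v i).σ {a | Apart (v i) (E i) (L i) a} l
      (fun j hj => apart_of h (hpairs.1 j hj)) γ hγ
    obtain ⟨y', β, hne', hy', hβ, rfl⟩ := eig_list h (v i).σ {a | Apart (v i) (E i) (L i) a} l'
      (fun j hj => apart_of h (hothers i j hj)) β' hβ'
    obtain ⟨b, hb, hb'⟩ := (hasEigenvalue_iff h _ _ _).1 hβ
    refine no_relation_star (ι := (v i).ι) (hreal i) (hle i) hEM hLM hα (Y := y ++ y') ?_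
      (fun a ha => ?_) (hM β b hb hb') ((v i).m * n) ?_
    · intro hne2
      by_cases hl : l = []
      · have hy0 : y = [] := by
          by_contra h0
          exact hne h0 hl
        have hy0' : y' ≠ [] := by
          intro h0
          apply hne2
          rw [hy0, h0]
          rfl
        obtain ⟨j, hj⟩ := List.exists_mem_of_ne_nil l' (hne' hy0')
        exact (hothers i j hj).1
      · obtain ⟨j, hj⟩ := List.exists_mem_of_ne_nil l hl
        exact (hpairs.1 j hj).1
    · rcases List.mem_append.1 ha with ha | ha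
      · exact hy a ha
      · exact hy' a ha
    · rw [List.prod_append, ← mul_assoc α, mul_assoc, mul_assoc, heq]
      push_cast
      rw [← zpow_natCast, ← zpow_mul]

theorem IsSystem.tail {i : I} {l : List I} (hsys : IsSystem ρ v E L X Y Z (i :: l) l') :
    IsSystem ρ v E L X Y Z l l' :=
  ⟨hsys.pos, hsys.character, hsys.real, hsys.le, hsys.good, (List.pairwise_cons.1 hsys.pairs).2,
    hsys.others, hsys.base⟩

/-- **The theorem.** -/
theorem main [IsAlgClosed K] (h : IsArithmetic ρ) (l : List I)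
    (hsys : IsSystem ρ v E L X Y Z l l') :
    (∀ n : ℕ, IsSpanned ρ (productOf X (productOf Y Z l') l) n ↔
        ∀ m : ℕ, m ≤ n → n ≤ m + dimension X l → IsSpanned ρ (productOf Y Z l') m) ∧
      ((∀ n, RankEquality ρ (productOf X (productOf Y Z l') l) n) ↔
        ∀ n, RankEquality ρ (productOf Y Z l') n) ∧
      (∀ i l₁, l = i :: l₁ → IsDetermined ρ (X i) (productOf X (productOf Y Z l') l₁)) := by
  induction l with
  | nil =>
    refine ⟨fun n => ?_, Iff.rfl, fun i l₁ h1 => absurd h1 (by simp)⟩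
    change IsSpanned ρ (productOf Y Z l') n ↔
      ∀ m : ℕ, m ≤ n → n ≤ m + 0 → IsSpanned ρ (productOf Y Z l') m
    constructor
    · intro h1 m hm hn
      have : m = n := by omega
      rw [this]
      exact h1
    · intro h1
      exact h1 n le_rfl (by omega)
  | cons i l ih =>
    obtain ⟨h0, h1, h2⟩ := system_step h hsys
    obtain ⟨h3, h4, -⟩ := ih hsys.tail
    refine ⟨fun n => ?_, h2.trans h4, fun i' l₁ h6 => ?_⟩
    · rw [h1]
      simp only [h3]
      change _ ↔ ∀ m : ℕ, m ≤ n → n ≤ m + ((X i).dim + dimension X l) →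
        IsSpanned ρ (productOf Y Z l') m
      constructor
      · intro h5 m hm hn
        refine h5 (max m (n - (X i).dim)) (by omega) (by omega) m (by omega) (by omega)
      · intro h5 m hm hn m' hm' hn'
        exact h5 m' (by omega) (by omega)
    · obtain ⟨rfl, rfl⟩ := List.cons.inj h6
      exact h0

end Pool.Agent.U173.OP
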